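import Pool.Agent.helper22.FI3.SpecCQ

set_option autoImplicit false

namespace Pool.Agent.FI3

open Pool.Agent.helper58.DC Pool.Agent.DI Pool.Agent.GR Pool.Agent.OB Pool.Agent.DR Pool.Agent.FI

section

variable {p : ℕ} {G Gb : Type} [Group G] [Group Gb] {L Z : Subgroup G} {π : L →* Gb}

theorem JSG_le (h : Qt p L Z π) (N : Subgroup Gb) : Z ≤ pre π N ∧ pre π N ≤ L := by
  refine ⟨fun z hz => ?_, fun x hx => ?_⟩
  · refine mem_pre.2 ⟨h.le hz, ?_⟩
    rw [(h.ker ⟨z, h.le hz⟩).2 hz]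
    exact N.one_mem
  · exact (mem_pre.1 hx).1

theorem JSG_card [Finite G] [Finite Gb] (h : Qt p L Z π) (N : Subgroup Gb) :
    Nat.card (pre π N) = Nat.card Z * Nat.card N := by
  obtain ⟨h1, h2⟩ := JSG_le h N
  set f : (pre π N) →* Gb := π.comp (Subgroup.inclusion h2) with hf
  have hk : f.ker = Z.subgroupOf (pre π N) := by
    ext x
    rw [MonoidHom.mem_ker, Subgroup.mem_subgroupOf]
    exact h.ker _
  have hr : f.range = N := by
    ext y
    rw [MonoidHom.mem_range]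
    constructor
    · rintro ⟨x, rfl⟩
      exact (mem_pre.1 x.2).2
    · intro hy
      obtain ⟨a, rfl⟩ := h.sur y
      exact ⟨⟨a, mem_pre.2 ⟨a.2, hy⟩⟩, rfl⟩
  have e1 := Subgroup.card_mul_index f.ker
  rw [Subgroup.index_ker, hr, hk] at e1
  rw [← e1, Nat.card_congr (Subgroup.subgroupOfEquivOfLe h1).toEquiv]

theorem JSG_mono (h : Qt p L Z π) (N N' : Subgroup Gb) : pre π N ≤ pre π N' ↔ N ≤ N' := by
  constructor
  · intro hN y hy
    obtain ⟨a, rfl⟩ := h.sur y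
    exact (mem_pre.1 (hN (mem_pre.2 ⟨a.2, hy⟩))).2
  · intro hN x hx
    obtain ⟨hx1, hx2⟩ := mem_pre.1 hx
    exact mem_pre.2 ⟨hx1, hN hx2⟩

theorem JSG_nz (h : Qt p L Z π) (N : Subgroup Gb) : pre π (nz N) = L ⊓ nz (pre π N) := by
  ext x
  rw [Subgroup.mem_inf]
  constructor
  · intro hx
    obtain ⟨hxL, hx2⟩ := mem_pre.1 hx
    refine ⟨hxL, ?_⟩
    unfold nz at hx2 ⊢
    rw [Subgroup.mem_normalizer_iff] at hx2 ⊢
    intro g
    constructor
    · intro hg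
      obtain ⟨hgL, hg2⟩ := mem_pre.1 hg
      refine mem_pre.2 ⟨L.mul_mem (L.mul_mem hxL hgL) (L.inv_mem hxL), ?_⟩
      have e : π ⟨x * g * x⁻¹, L.mul_mem (L.mul_mem hxL hgL) (L.inv_mem hxL)⟩
          = π ⟨x, hxL⟩ * π ⟨g, hgL⟩ * (π ⟨x, hxL⟩)⁻¹ := by
        rw [← map_mul, ← map_inv, ← map_mul]
        rfl
      rw [e]
      exact (hx2 _).1 hg2
    · intro hg
      obtain ⟨hgL, hg2⟩ := mem_pre.1 hg
      have hgL' : g ∈ L := by
        have := L.mul_mem (L.mul_mem (L.inv_mem hxL) hgL) hxL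
        have e : x⁻¹ * (x * g * x⁻¹) * x = g := by group
        rwa [e] at this
      refine mem_pre.2 ⟨hgL', ?_⟩
      have e : π ⟨x * g * x⁻¹, hgL⟩
          = π ⟨x, hxL⟩ * π ⟨g, hgL'⟩ * (π ⟨x, hxL⟩)⁻¹ := by
        rw [← map_mul, ← map_inv, ← map_mul]
        rfl
      rw [e] at hg2
      exact (hx2 _).2 hg2
  · rintro ⟨hxL, hx2⟩
    refine mem_pre.2 ⟨hxL, ?_⟩
    unfold nz at hx2 ⊢
    rw [Subgroup.mem_normalizer_iff] at hx2 ⊢
    intro y
    obtain ⟨a, rfl⟩ := h.sur y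
    have e : π ⟨x, hxL⟩ * π a * (π ⟨x, hxL⟩)⁻¹
        = π ⟨x * a * x⁻¹, L.mul_mem (L.mul_mem hxL a.2) (L.inv_mem hxL)⟩ := by
      rw [← map_mul, ← map_inv, ← map_mul]
      rfl
    constructor
    · intro ha
      rw [e]
      exact (mem_pre.1 ((hx2 a).1 (mem_pre.2 ⟨a.2, ha⟩))).2
    · intro ha
      rw [e] at ha
      exact (mem_pre.1 ((hx2 a).2 (mem_pre.2
        ⟨L.mul_mem (L.mul_mem hxL a.2) (L.inv_mem hxL), ha⟩))).2

end

theorem JSG : JSG_stmt := by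
  intro p _ G Gb _ _ _ _ L Z π h
  have hp : p.Prime := Fact.out
  obtain ⟨k, hk⟩ := IsPGroup.iff_card.1 h.pg
  refine ⟨fun N => ?_, JSG_mono h, ?_, ?_, ?_, JSG_nz h, ?_⟩
  · obtain ⟨h1, h2⟩ := JSG_le h N
    have h3 := JSG_card h N
    refine ⟨h1, h2, h3, ?_, ?_⟩
    · rw [IsPGroup.iff_card, IsPGroup.iff_card, h3, hk]
      constructor
      · rintro ⟨n, hn⟩
        exact ⟨k + n, by rw [hn, pow_add]⟩
      · rintro ⟨m, hm⟩
        have hd : Nat.card N ∣ p ^ m := Dvd.intro_left _ hm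
        obtain ⟨j, -, hj⟩ := (Nat.dvd_prime_pow hp).1 hd
        exact ⟨j, hj⟩
    · unfold pp
      rw [h3, hk, padicValNat.mul (pow_ne_zero _ hp.ne_zero) Nat.card_pos.ne', padicValNat.prime_pow,
        pow_add]
  · intro H hZH hHL
    ext x
    constructor
    · intro hx
      obtain ⟨hxL, hx2⟩ := mem_pre.1 hx
      obtain ⟨a, ha, hax⟩ := Subgroup.mem_map.1 hx2
      have h1 : π (a⁻¹ * ⟨x, hxL⟩) = 1 := by
        rw [map_mul, map_inv, hax, inv_mul_cancel]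
      have h2 := hZH ((h.ker _).1 h1)
      have h3 : (a : G) ∈ H := ha
      have h4 := H.mul_mem h3 h2
      have e : (a : G) * ((a⁻¹ * ⟨x, hxL⟩ : L) : G) = x := by
        rw [Subgroup.coe_mul, Subgroup.coe_inv, mul_inv_cancel_left]
      rwa [e] at h4
    · intro hx
      exact mem_pre.2 ⟨hHL hx, Subgroup.mem_map.2 ⟨⟨x, hHL hx⟩, hx, rfl⟩⟩
  · ext x
    constructor
    · intro hx
      exact (mem_pre.1 hx).1
    · intro hx
      exact mem_pre.2 ⟨hx, Subgroup.mem_top _⟩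
  · ext x
    constructor
    · intro hx
      obtain ⟨hxL, hx2⟩ := mem_pre.1 hx
      exact (h.ker _).1 (Subgroup.mem_bot.1 hx2)
    · intro hx
      exact (JSG_le h ⊥).1 hx
  · intro N N'
    rw [← JSG_mono h, JSG_nz h]
    constructor
    · intro hN x hx
      exact (Subgroup.mem_inf.1 (hN hx)).2
    · intro hN x hx
      exact Subgroup.mem_inf.2 ⟨(JSG_le h N').2 hx, hN hx⟩

end Pool.Agent.FI3
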